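import Mathlib
import Pool.Agent.Lib_helper82.Quartic.Final

set_option autoImplicit false

/-!
Lucas sequences `U_n(b,-1)`, `V_n(b,-1)` at the index `(p-1)/4` for `b ≡ 4 (mod 8)`.

The proof evaluates the quartic residue symbol of `b/2 + √(1 + b²/4)` modulo a Gaussian prime
above `p` by quartic and quadratic reciprocity in `ℤ[i]` and an auxiliary Gaussian integer.
-/

namespace Pool.Agent.Results.MP_1f3cf9_nt.QuarterIndexFull

open Pool.Agent.Quartic82

/-- The Lucas sequence `U_n(b,c)`: `U_0 = 0`, `U_1 = 1`, `U_{n+2} = b U_{n+1} - c U_n`. -/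
def lucasU (b c : ℤ) : ℕ → ℤ
  | 0 => 0
  | 1 => 1
  | n + 2 => b * lucasU b c (n + 1) - c * lucasU b c n

/-- The Lucas sequence `V_n(b,c)`: `V_0 = 2`, `V_1 = b`, `V_{n+2} = b V_{n+1} - c V_n`. -/
def lucasV (b c : ℤ) : ℕ → ℤ
  | 0 => 2
  | 1 => b
  | n + 2 => b * lucasV b c (n + 1) - c * lucasV b c n

/-- The odd part of a nonzero integer `m = 2^α m₀` with `m₀` odd is `m₀` (it may be negative). -/
def oddPart (m : ℤ) : ℤ := m / 2 ^ padicValInt 2 m

theorem oddPart_spec {m : ℤ} (h : oddPart m % 4 = 1) :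
    ∃ (k : ℕ) (m0 : ℤ), m = 2 ^ k * m0 ∧ m0 % 4 = 1 := by
  refine ⟨padicValInt 2 m, oddPart m, ?_, h⟩
  have h1 : (2 : ℤ) ^ padicValInt 2 m ∣ m := by
    have := padicValInt_dvd (p := 2) m
    exact_mod_cast this
  unfold oddPart
  rw [Int.mul_ediv_cancel' h1]

/-- residues of an integer whose odd part is `1` modulo `4` -/
theorem residues {m : ℤ} (h : oddPart m % 4 = 1) :
    m ≠ 0 ∧ (m % 4 = 1 ∨ m % 8 = 2 ∨ m % 4 = 0) := by
  obtain ⟨k, m0, hm, hm0⟩ := oddPart_spec h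
  constructor
  · rintro rfl
    have h2 : (2 : ℤ) ^ k ≠ 0 := pow_ne_zero _ (by norm_num)
    rcases mul_eq_zero.1 hm.symm with h3 | h3
    · exact h2 h3
    · omega
  · match k, hm with
    | 0, hm => left; rw [pow_zero, one_mul] at hm; omega
    | 1, hm => right; left; rw [pow_one] at hm; omega
    | k + 2, hm =>
      right; right
      have : m = 4 * (2 ^ k * m0) := by rw [hm]; ring
      omega

theorem lucas_closed {R : Type} [CommRing R] (b c : ℤ) (α β : R) (h1 : α + β = b)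
    (h2 : α * β = c) (n : ℕ) :
    ((α - β) * (lucasU b c n : R) = α ^ n - β ^ n ∧ (lucasV b c n : R) = α ^ n + β ^ n) ∧
    ((α - β) * (lucasU b c (n + 1) : R) = α ^ (n + 1) - β ^ (n + 1) ∧
      (lucasV b c (n + 1) : R) = α ^ (n + 1) + β ^ (n + 1)) := by
  induction n with
  | zero =>
    refine ⟨⟨by simp [lucasU], ?_⟩, ⟨by simp [lucasU], ?_⟩⟩
    · simp [lucasV]; norm_num
    · simp [lucasV, h1]
  | succ n ih =>
    obtain ⟨⟨a1, a2⟩, ⟨a3, a4⟩⟩ := ih
    refine ⟨⟨a3, a4⟩, ?_, ?_⟩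
    · have e : lucasU b c (n + 1 + 1) = b * lucasU b c (n + 1) - c * lucasU b c n := rfl
      rw [e]
      push_cast
      rw [← h1, ← h2]
      linear_combination (α + β) * a3 - (α * β) * a1
    · have e : lucasV b c (n + 1 + 1) = b * lucasV b c (n + 1) - c * lucasV b c n := rfl
      rw [e]
      push_cast
      rw [← h1, ← h2]
      linear_combination (α + β) * a4 - (α * β) * a2

theorem sg_eq (k : ℤ) : ((k.negOnePow : ℤˣ) : ℤ) = sg k := by
  unfold sg
  rcases Int.even_or_odd k with h | h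
  · rw [Int.negOnePow_even k h, if_pos (Int.even_iff.1 h)]; rfl
  · rw [Int.negOnePow_odd k h, if_neg (by rw [Int.odd_iff.1 h]; norm_num)]; rfl

theorem sg_sq (k : ℤ) : sg k * sg k = 1 := by
  unfold sg; split_ifs <;> norm_num

/-- the common situation modulo `p` -/
theorem common (C : Cfg) [Fact C.p.Prime] (s0 : GaussianInt)
    (h : Q2 C.k C.pi = Q4 (2 * C.g) C.pi * s0) :
    ∃ (f : GaussianInt →+* ZMod C.p) (w : ZMod C.p), (∀ z, C.pi ∣ z ↔ f z = 0) ∧
      (C.y : ZMod C.p) * w = f gI * C.x ∧ w ≠ 0 ∧ w ^ 2 = 1 + (C.B : ZMod C.p) ^ 2 ∧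
      f gI * f gI = -1 ∧ (C.c : ZMod C.p) + C.d * f gI = 0 ∧
      ((C.B : ZMod C.p) + w) ^ ((C.p - 1) / 4) * (C.y : ZMod C.p) ^ (2 * ((C.p - 1) / 4))
        = f s0 := by
  obtain ⟨f, hf⟩ := exists_hom C.pi_norm
  have hy : (C.y : ZMod C.p) ≠ 0 := by
    intro h0
    rw [ZMod.intCast_zmod_eq_zero_iff_dvd] at h0
    exact C.hy0 h0
  have hx : (C.x : ZMod C.p) ≠ 0 := by
    intro h0
    rw [ZMod.intCast_zmod_eq_zero_iff_dvd] at h0
    exact C.hx0 h0
  have hI : f gI * f gI = -1 := by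
    rw [← map_mul, gI_mul_gI, map_neg, map_one]
  have hI0 : f gI ≠ 0 := by
    intro h0
    rw [h0] at hI
    simp at hI
  have hw : (C.y : ZMod C.p) * (f gI * C.x * (C.y : ZMod C.p)⁻¹) = f gI * C.x := by
    field_simp
  have hw2 : (f gI * C.x * (C.y : ZMod C.p)⁻¹) ^ 2 = 1 + (C.B : ZMod C.p) ^ 2 := by
    have hxy : (C.x : ZMod C.p) ^ 2 + (1 + (C.B : ZMod C.p) ^ 2) * (C.y : ZMod C.p) ^ 2 = 0 := by
      have h1 := congrArg (fun t : ℤ => (t : ZMod C.p)) C.hxy
      push_cast at h1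
      rw [← h1]
      exact ZMod.natCast_self _
    have h1 : (C.y : ZMod C.p) ^ 2 * (f gI * C.x * (C.y : ZMod C.p)⁻¹) ^ 2
        = (C.y : ZMod C.p) ^ 2 * (1 + (C.B : ZMod C.p) ^ 2) := by
      calc (C.y : ZMod C.p) ^ 2 * (f gI * C.x * (C.y : ZMod C.p)⁻¹) ^ 2
          = (C.y * (f gI * C.x * (C.y : ZMod C.p)⁻¹)) ^ 2 := by ring
        _ = (f gI * f gI) * (C.x : ZMod C.p) ^ 2 := by rw [hw]; ring
        _ = _ := by rw [hI]; linear_combination (-1 : ZMod C.p) * hxy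
    exact mul_left_cancel₀ (pow_ne_zero 2 hy) h1
  refine ⟨f, f gI * C.x * (C.y : ZMod C.p)⁻¹, hf, hw, ?_, hw2, hI, ?_, value C f hf _ hw s0 h⟩
  · exact mul_ne_zero (mul_ne_zero hI0 hx) (inv_ne_zero hy)
  · have h1 := (hf C.pi).1 dvd_rfl
    have e : C.pi = (C.c : GaussianInt) + C.d * gI := by
      simp only [Cfg.pi]; ext <;> simp
    rw [e, map_add, map_mul, map_intCast, map_intCast] at h1
    exact h1

theorem two_ne {p : ℕ} [hp : Fact p.Prime] (h4 : p % 4 = 1) : (2 : ZMod p) ≠ 0 := by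
  have : ((2 : ℕ) : ZMod p) ≠ 0 := by
    rw [Ne, ZMod.natCast_eq_zero_iff]
    intro h
    have := Nat.le_of_dvd (by norm_num) h
    have := hp.1.two_le
    omega
  simpa using this

/-- The four cases, in `ZMod p`, with `b = 2B`. -/
theorem caseA {p : ℕ} [Fact p.Prime] (h4 : p % 4 = 1) (B : ℤ) {K : ℕ} (hK : K % 2 = 0)
    (w ι x y ε : ZMod p) (hw2 : w ^ 2 = 1 + (B : ZMod p) ^ 2)
    (hI : ι * ι = -1) (hyw : y * w = ι * x) (hε : ε * ε = 1)
    (hα : ((B : ZMod p) + w) ^ K = ι * ε) :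
    x * (lucasU (2 * B) (-1) K : ZMod p) = ε * y ∧ (lucasV (2 * B) (-1) K : ZMod p) = 0 := by
  have h2 := two_ne h4
  obtain ⟨⟨hU, hV⟩, _⟩ := lucas_closed (R := ZMod p) (2 * B) (-1) ((B : ZMod p) + w) (B - w)
    (by push_cast; ring) (by push_cast; linear_combination (-1 : ZMod p) * hw2) K
  have hprod : ((B : ZMod p) + w) ^ K * ((B : ZMod p) - w) ^ K = 1 := by
    rw [← mul_pow]
    have : ((B : ZMod p) + w) * ((B : ZMod p) - w) = -1 := by
      linear_combination (-1 : ZMod p) * hw2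
    rw [this, Even.neg_one_pow (Nat.even_iff.2 hK)]
  have hβ : ((B : ZMod p) - w) ^ K = -(ι * ε) := by
    rw [hα] at hprod
    calc ((B : ZMod p) - w) ^ K = (-(ι * ι) * (ε * ε)) * ((B : ZMod p) - w) ^ K := by
          rw [hI, hε]; ring
      _ = -(ι * ε) * (ι * ε * ((B : ZMod p) - w) ^ K) := by ring
      _ = -(ι * ε) := by rw [hprod, mul_one]
  rw [hα, hβ] at hU hV
  have hI0 : ι ≠ 0 := by
    intro h0; rw [h0] at hI; simp at hI
  constructor
  · have h5 : (2 * ι) * (x * (lucasU (2 * B) (-1) K : ZMod p)) = (2 * ι) * (ε * y) := by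
      linear_combination (-2 * (lucasU (2 * B) (-1) K : ZMod p)) * hyw + y * hU
    exact mul_left_cancel₀ (mul_ne_zero h2 hI0) h5
  · rw [hV]; ring

theorem caseB {p : ℕ} [Fact p.Prime] (h4 : p % 4 = 1) (B : ℤ) {K : ℕ} (hK : K % 2 = 1)
    (w ι x y c d : ZMod p) (hw2 : w ^ 2 = 1 + (B : ZMod p) ^ 2)
    (hyw : y * w = ι * x) (hcd : c + d * ι = 0)
    (hα : ((B : ZMod p) + w) ^ K = -1) :
    c * x * (lucasU (2 * B) (-1) K : ZMod p) = d * y ∧ (lucasV (2 * B) (-1) K : ZMod p) = 0 := by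
  have h2 := two_ne h4
  obtain ⟨⟨hU, hV⟩, _⟩ := lucas_closed (R := ZMod p) (2 * B) (-1) ((B : ZMod p) + w) (B - w)
    (by push_cast; ring) (by push_cast; linear_combination (-1 : ZMod p) * hw2) K
  have hprod : ((B : ZMod p) + w) ^ K * ((B : ZMod p) - w) ^ K = -1 := by
    rw [← mul_pow]
    have : ((B : ZMod p) + w) * ((B : ZMod p) - w) = -1 := by
      linear_combination (-1 : ZMod p) * hw2
    rw [this, Odd.neg_one_pow (Nat.odd_iff.2 hK)]
  have hβ : ((B : ZMod p) - w) ^ K = 1 := by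
    rw [hα] at hprod
    linear_combination (-1 : ZMod p) * hprod
  rw [hα, hβ] at hU hV
  constructor
  · have h5 : 2 * (c * x * (lucasU (2 * B) (-1) K : ZMod p)) = 2 * (d * y) := by
      linear_combination (2 * x * (lucasU (2 * B) (-1) K : ZMod p)) * hcd
        + (2 * d * (lucasU (2 * B) (-1) K : ZMod p)) * hyw - (d * y) * hU
    exact mul_left_cancel₀ h2 h5
  · rw [hV]; ring

theorem caseC {p : ℕ} [Fact p.Prime] (h4 : p % 4 = 1) (B : ℤ) {K : ℕ} (hK : K % 2 = 1)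
    (w ι c d ε : ZMod p) (hw2 : w ^ 2 = 1 + (B : ZMod p) ^ 2) (hw0 : w ≠ 0)
    (hI : ι * ι = -1) (hcd : c + d * ι = 0) (hε : ε * ε = 1)
    (hα : ((B : ZMod p) + w) ^ K = ι * ε) :
    (lucasU (2 * B) (-1) K : ZMod p) = 0 ∧ c * (lucasV (2 * B) (-1) K : ZMod p) = 2 * ε * d := by
  have h2 := two_ne h4
  obtain ⟨⟨hU, hV⟩, _⟩ := lucas_closed (R := ZMod p) (2 * B) (-1) ((B : ZMod p) + w) (B - w)
    (by push_cast; ring) (by push_cast; linear_combination (-1 : ZMod p) * hw2) K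
  have hprod : ((B : ZMod p) + w) ^ K * ((B : ZMod p) - w) ^ K = -1 := by
    rw [← mul_pow]
    have : ((B : ZMod p) + w) * ((B : ZMod p) - w) = -1 := by
      linear_combination (-1 : ZMod p) * hw2
    rw [this, Odd.neg_one_pow (Nat.odd_iff.2 hK)]
  have hβ : ((B : ZMod p) - w) ^ K = ι * ε := by
    rw [hα] at hprod
    calc ((B : ZMod p) - w) ^ K = (-(ι * ι) * (ε * ε)) * ((B : ZMod p) - w) ^ K := by
          rw [hI, hε]; ring
      _ = -(ι * ε) * (ι * ε * ((B : ZMod p) - w) ^ K) := by ring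
      _ = ι * ε := by rw [hprod]; ring
  rw [hα, hβ] at hU hV
  constructor
  · have h5 : (2 * w) * (lucasU (2 * B) (-1) K : ZMod p) = (2 * w) * 0 := by
      linear_combination hU
    exact mul_left_cancel₀ (mul_ne_zero h2 hw0) h5
  · rw [hV]
    linear_combination (2 * ι * ε) * hcd - (2 * d * ε) * hI

theorem caseD {p : ℕ} [Fact p.Prime] (h4 : p % 4 = 1) (B : ℤ) {K : ℕ} (hK : K % 2 = 0)
    (w ε : ZMod p) (hw2 : w ^ 2 = 1 + (B : ZMod p) ^ 2) (hw0 : w ≠ 0) (hε : ε * ε = 1)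
    (hα : ((B : ZMod p) + w) ^ K = ε) :
    (lucasU (2 * B) (-1) K : ZMod p) = 0 ∧ (lucasV (2 * B) (-1) K : ZMod p) = 2 * ε := by
  have h2 := two_ne h4
  obtain ⟨⟨hU, hV⟩, _⟩ := lucas_closed (R := ZMod p) (2 * B) (-1) ((B : ZMod p) + w) (B - w)
    (by push_cast; ring) (by push_cast; linear_combination (-1 : ZMod p) * hw2) K
  have hprod : ((B : ZMod p) + w) ^ K * ((B : ZMod p) - w) ^ K = 1 := by
    rw [← mul_pow]
    have : ((B : ZMod p) + w) * ((B : ZMod p) - w) = -1 := by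
      linear_combination (-1 : ZMod p) * hw2
    rw [this, Even.neg_one_pow (Nat.even_iff.2 hK)]
  have hβ : ((B : ZMod p) - w) ^ K = ε := by
    rw [hα] at hprod
    calc ((B : ZMod p) - w) ^ K = (ε * ε) * ((B : ZMod p) - w) ^ K := by rw [hε, one_mul]
      _ = ε * (ε * ((B : ZMod p) - w) ^ K) := by ring
      _ = ε := by rw [hprod, mul_one]
  rw [hα, hβ] at hU hV
  constructor
  · have h5 : (2 * w) * (lucasU (2 * B) (-1) K : ZMod p) = (2 * w) * 0 := by
      linear_combination hU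
    exact mul_left_cancel₀ (mul_ne_zero h2 hw0) h5
  · rw [hV]; ring

theorem sq_mod8_odd {z : ℤ} (h : z % 2 = 1) : z ^ 2 % 8 = 1 := by
  obtain ⟨k, hk⟩ : ∃ k, z = 2 * k + 1 := ⟨z / 2, by omega⟩
  have : z ^ 2 = 4 * (k * (k + 1)) + 1 := by rw [hk]; ring
  obtain ⟨r, hr⟩ := Int.even_mul_succ_self k
  rw [this, hr]; omega

theorem sq_mod8_two {z : ℤ} (h : z % 4 = 2) : z ^ 2 % 8 = 4 := by
  obtain ⟨k, hk⟩ : ∃ k, z = 4 * k + 2 := ⟨z / 4, by omega⟩
  rw [hk]; ring_nf; omega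

theorem sq_mod8_zero {z : ℤ} (h : z % 4 = 0) : z ^ 2 % 8 = 0 := by
  obtain ⟨k, hk⟩ : ∃ k, z = 4 * k := ⟨z / 4, by omega⟩
  rw [hk]; ring_nf; omega

/-- **Theorem.** The congruences of Z.-H. Sun for `U_{(p-1)/4}(b,-1)` and `V_{(p-1)/4}(b,-1)`
modulo `p`, for `b ≡ 4 (mod 8)`. -/
theorem result (p : ℕ) (b c d x y : ℤ) (hp : p.Prime) (hp4 : p % 4 = 1) (hb : b % 8 = 4)
    (hpb : (p : ℤ) ≠ 1 + b ^ 2 / 4)
    (hcd : (p : ℤ) = c ^ 2 + d ^ 2) (hxy : (p : ℤ) = x ^ 2 + (1 + b ^ 2 / 4) * y ^ 2)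
    (hc : c % 4 = 1) (hd : oddPart d % 4 = 1) (hx : oddPart x % 4 = 1)
    (hy : oddPart y % 4 = 1) :
    -- the denominators are prime to `p`, exactly one of `x`, `y` is even
    (¬ (p : ℤ) ∣ c ∧ ¬ (p : ℤ) ∣ x ∧ ((2 ∣ x ∧ ¬ 2 ∣ y) ∨ (2 ∣ y ∧ ¬ 2 ∣ x))) ∧
    -- the congruence for `U`
    (2 ∣ x ∧ ¬ 4 ∣ x → 4 ∣ d ∧
      x * lucasU b (-1) ((p - 1) / 4) ≡ ((b + 4) / 8 + d / 4).negOnePow * y [ZMOD p]) ∧
    (2 ∣ y ∧ ¬ 4 ∣ y →
      (c * x) * lucasU b (-1) ((p - 1) / 4) ≡ d * y [ZMOD p]) ∧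
    (4 ∣ x * y → lucasU b (-1) ((p - 1) / 4) ≡ 0 [ZMOD p]) ∧
    -- the congruence for `V`
    (4 ∣ y → 4 ∣ d ∧
      lucasV b (-1) ((p - 1) / 4) ≡ 2 * (d / 4 + y / 4).negOnePow [ZMOD p]) ∧
    (4 ∣ x →
      c * lucasV b (-1) ((p - 1) / 4) ≡ 2 * ((b - 4) / 8 + x / 4).negOnePow * d [ZMOD p]) ∧
    (¬ 4 ∣ x * y → lucasV b (-1) ((p - 1) / 4) ≡ 0 [ZMOD p]) := by
  have := hpb
  obtain ⟨B, hB⟩ : ∃ B, b = 2 * B := ⟨b / 2, by omega⟩
  have hB4 : B % 4 = 2 := by omega
  have hb4 : b ^ 2 / 4 = B ^ 2 := by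
    rw [hB]
    have : (2 * B) ^ 2 = 4 * B ^ 2 := by ring
    rw [this, Int.mul_ediv_cancel_left _ (by norm_num)]
  rw [hb4] at hxy
  obtain ⟨hx0, hxr⟩ := residues hx
  obtain ⟨hy0, hyr⟩ := residues hy
  obtain ⟨hd0, hdr⟩ := residues hd
  have hc2 := sq_mod8_odd (z := c) (by omega)
  have hB2 := sq_mod8_two hB4
  have hp4' : (p : ℤ) % 4 = 1 := by omega
  have hd2 : d % 2 = 0 := by
    rcases hdr with h | h | h
    · exfalso
      have := sq_mod8_odd (z := d) (by omega)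
      omega
    · omega
    · omega
  have hd2' : d ^ 2 % 8 = 0 ∨ d ^ 2 % 8 = 4 := by
    rcases hdr with h | h | h
    · omega
    · right; exact sq_mod8_two (by omega)
    · left; exact sq_mod8_zero h
  -- parity of x, y
  have hmod : ∀ s t : ℤ, y ^ 2 % 8 = s → x ^ 2 % 8 = t → (c ^ 2 + d ^ 2) % 8 = (t + 5 * s) % 8 := by
    intro s t hs ht
    rw [← hcd, hxy]
    have e : ((1 + B ^ 2) * y ^ 2) % 8 = (5 * s) % 8 := by
      rw [Int.mul_emod, hs]
      have : (1 + B ^ 2) % 8 = 5 := by omega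
      rw [this]
    omega
  have hD : (0 : ℤ) < 1 + B ^ 2 := by positivity
  have hyp : (0 : ℤ) < y ^ 2 := by positivity
  have hxp : (0 : ℤ) < x ^ 2 := by positivity
  have hdp : (0 : ℤ) < d ^ 2 := by positivity
  have hpx : ¬ (p : ℤ) ∣ x := not_p_dvd hx0 (by nlinarith)
  have hpc : ¬ (p : ℤ) ∣ c := not_p_dvd (by omega) (by nlinarith)
  have hfact : Fact p.Prime := ⟨hp⟩
  have hzmod : ∀ s t : ℤ, ((s : ℤ) : ZMod p) = ((t : ℤ) : ZMod p) → s ≡ t [ZMOD p] :=
    fun s t h => (ZMod.intCast_eq_intCast_iff _ _ _).1 h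
  rcases hxr with hxr | hxr | hxr
  · -- x odd
    have hx2 := sq_mod8_odd (z := x) (by omega)
    rcases hyr with hyr | hyr | hyr
    · exfalso
      have hy2 := sq_mod8_odd (z := y) (by omega)
      have := hmod _ _ hy2 hx2
      omega
    · -- case 2
      have hy2 := sq_mod8_two (z := y) (by omega)
      have h8 := hmod _ _ hy2 hx2
      have hd8 : d % 8 = 2 := by
        rcases hdr with h | h | h
        · omega
        · exact h
        · have := sq_mod8_zero h; omega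
      have hBy : (B * y) % 8 = 4 := by
        obtain ⟨B1, hB1⟩ : ∃ B1, B = 2 * (2 * B1 + 1) := ⟨B / 4, by omega⟩
        obtain ⟨y1, hy1⟩ : ∃ y1, y = 2 * (4 * y1 + 1) := ⟨y / 8, by omega⟩
        rw [hB1, hy1]; ring_nf; omega
      obtain ⟨C, h1, h2, h3, h4, h5, h6, h7, h9, h10⟩ := exists_cfg hp hcd hxy hc hd2 hB4 hx0 hy0 1
        (Or.inr ⟨rfl, by omega, by omega⟩) (by omega)
      subst h1 h2 h3 h4 h5 h6
      have hchain := C.case2 h7 h9 (by omega) hyr hd8 h10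
      obtain ⟨f, w, hf, hyw, hw0, hw2, hI, hcdι, hval⟩ := common C 1 (by rw [mul_one]; exact hchain)
      have hp8 : C.p % 8 = 5 := by omega
      have hleg : (C.y : ZMod C.p) ^ (2 * ((C.p - 1) / 4)) = -1 := by
        have e : 2 * ((C.p - 1) / 4) = C.p / 2 := by omega
        rw [e, ← legendreSym.eq_pow]
        obtain ⟨y1, hy1⟩ : ∃ y1, C.y = 2 * y1 := ⟨C.y / 2, by omega⟩
        have e2 : legendreSym C.p y1 = 1 := by
          apply legendre_y hp hp4 (x := C.x) (D := (1 + C.B ^ 2) * 4) (y := y1) (y0 := y1) 0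
            (by omega) (by ring) _ (Or.inl rfl)
          rw [hxy, hy1]; ring
        rw [hy1, legendreSym.mul, legendre_two hp8, e2]
        simp
      rw [hleg, map_one] at hval
      have hα : ((C.B : ZMod C.p) + w) ^ ((C.p - 1) / 4) = -1 := by
        linear_combination (-1 : ZMod C.p) * hval
      obtain ⟨hU, hV⟩ := caseB hp4 C.B (K := (C.p - 1) / 4) (by omega) w (f gI) C.x C.y C.c C.d
        hw2 hyw hcdι hα
      rw [← hB] at hU hV
      refine ⟨⟨hpc, hpx, Or.inr ⟨by omega, by omega⟩⟩, ?_, ?_, ?_, ?_, ?_, ?_⟩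
      · rintro ⟨h, _⟩; exfalso; omega
      · intro _
        apply hzmod
        push_cast
        exact hU
      · intro h
        exfalso
        obtain ⟨x1, hx1⟩ : ∃ x1, C.x = 2 * x1 + 1 := ⟨C.x / 2, by omega⟩
        obtain ⟨y1, hy1⟩ : ∃ y1, C.y = 4 * y1 + 2 := ⟨C.y / 4, by omega⟩
        rw [hx1, hy1] at h
        ring_nf at h
        omega
      · intro h; exfalso; omega
      · intro h; exfalso; omega
      · intro _
        apply hzmod
        push_cast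
        exact hV
    · -- case 4
      have hy2 := sq_mod8_zero hyr
      have h8 := hmod _ _ hy2 hx2
      have hd4 : d % 4 = 0 := by
        rcases hdr with h | h | h
        · omega
        · have := sq_mod8_two (z := d) (by omega); omega
        · exact h
      have hBy : (B * y) % 8 = 0 := by
        obtain ⟨B1, hB1⟩ : ∃ B1, B = 2 * B1 := ⟨B / 2, by omega⟩
        obtain ⟨y1, hy1⟩ : ∃ y1, y = 4 * y1 := ⟨y / 4, by omega⟩
        rw [hB1, hy1]; ring_nf; omega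
      obtain ⟨C, h1, h2, h3, h4, h5, h6, h7, h9, h10⟩ := exists_cfg hp hcd hxy hc hd2 hB4 hx0 hy0 1
        (Or.inr ⟨rfl, by omega, by omega⟩) (by omega)
      subst h1 h2 h3 h4 h5 h6
      have hchain := C.case4 h7 h9 (by omega) hyr hd4 h10
      obtain ⟨f, w, hf, hyw, hw0, hw2, hI, hcdι, hval⟩ := common C _ hchain
      have hp8 : C.p % 8 = 1 := by omega
      have hleg : (C.y : ZMod C.p) ^ (2 * ((C.p - 1) / 4)) = 1 := by
        have e : 2 * ((C.p - 1) / 4) = C.p / 2 := by omega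
        rw [e, ← legendreSym.eq_pow]
        obtain ⟨k, y0, hyk, hy0'⟩ := oddPart_spec hy
        rw [legendre_y hp hp4 k (y0 := y0) (by omega) hyk hxy (Or.inr hp8)]
        simp
      rw [hleg, map_intCast, mul_one] at hval
      have hε : (((sg (C.d / 4 + C.y / 4) : ℤ)) : ZMod C.p) * ((sg (C.d / 4 + C.y / 4) : ℤ) : ZMod C.p)
          = 1 := by
        rw [← Int.cast_mul, sg_sq, Int.cast_one]
      obtain ⟨hU, hV⟩ := caseD hp4 C.B (K := (C.p - 1) / 4) (by omega) w _ hw2 hw0 hε hval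
      rw [← hB] at hU hV
      refine ⟨⟨hpc, hpx, Or.inr ⟨by omega, by omega⟩⟩, ?_, ?_, ?_, ?_, ?_, ?_⟩
      · rintro ⟨h, _⟩; exfalso; omega
      · rintro ⟨_, h⟩; exfalso; omega
      · intro _
        apply hzmod
        push_cast
        exact hU
      · intro _
        refine ⟨by omega, ?_⟩
        apply hzmod
        rw [sg_eq]
        push_cast
        exact hV
      · intro h; exfalso; omega
      · intro h
        exfalso
        apply h
        exact Dvd.dvd.mul_left (by omega) _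
  · -- x ≡ 2 mod 8, case 1
    have hx2 := sq_mod8_two (z := x) (by omega)
    have hyo : y % 4 = 1 := by
      rcases hyr with h | h | h
      · exact h
      · exfalso
        have hy2 := sq_mod8_two (z := y) (by omega)
        have := hmod _ _ hy2 hx2
        omega
      · exfalso
        have hy2 := sq_mod8_zero h
        have := hmod _ _ hy2 hx2
        omega
    have hy2 := sq_mod8_odd (z := y) (by omega)
    have h8 := hmod _ _ hy2 hx2
    have hd4 : d % 4 = 0 := by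
      rcases hdr with h | h | h
      · omega
      · have := sq_mod8_two (z := d) (by omega); omega
      · exact h
    have hBy : (B * y) % 4 = 2 := by
      rw [Int.mul_emod, hB4, hyo]; rfl
    obtain ⟨C, h1, h2, h3, h4, h5, h6, h7, h9, h10⟩ := exists_cfg hp hcd hxy hc hd2 hB4 hx0 hy0 0
      (Or.inl ⟨rfl, by omega, hyo⟩) (by omega)
    subst h1 h2 h3 h4 h5 h6
    have hchain := C.case1 h7 h9 hxr hyo hd4 h10
    obtain ⟨f, w, hf, hyw, hw0, hw2, hI, hcdι, hval⟩ := common C _ hchain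
    have hleg : (C.y : ZMod C.p) ^ (2 * ((C.p - 1) / 4)) = 1 := by
      have e : 2 * ((C.p - 1) / 4) = C.p / 2 := by omega
      rw [e, ← legendreSym.eq_pow]
      rw [legendre_y hp hp4 0 (y0 := C.y) (by omega) (by ring) hxy (Or.inl rfl)]
      simp
    rw [hleg, map_mul, map_intCast, mul_one] at hval
    have hε : (((sg ((C.B + 2) / 4 + C.d / 4) : ℤ)) : ZMod C.p) *
        ((sg ((C.B + 2) / 4 + C.d / 4) : ℤ) : ZMod C.p) = 1 := by
      rw [← Int.cast_mul, sg_sq, Int.cast_one]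
    obtain ⟨hU, hV⟩ := caseA hp4 C.B (K := (C.p - 1) / 4) (by omega) w (f gI) C.x C.y _ hw2 hI hyw
      hε hval
    rw [← hB] at hU hV
    have hbB : (b + 4) / 8 = (C.B + 2) / 4 := by omega
    refine ⟨⟨hpc, hpx, Or.inl ⟨by omega, by omega⟩⟩, ?_, ?_, ?_, ?_, ?_, ?_⟩
    · intro _
      refine ⟨by omega, ?_⟩
      apply hzmod
      rw [sg_eq, hbB]
      push_cast
      exact hU
    · rintro ⟨h, _⟩; exfalso; omega
    · intro h
      exfalso
      obtain ⟨x1, hx1⟩ : ∃ x1, C.x = 4 * x1 + 2 := ⟨C.x / 4, by omega⟩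
      obtain ⟨y1, hy1⟩ : ∃ y1, C.y = 2 * y1 + 1 := ⟨C.y / 2, by omega⟩
      rw [hx1, hy1] at h
      ring_nf at h
      omega
    · intro h; exfalso; omega
    · intro h; exfalso; omega
    · intro _
      apply hzmod
      push_cast
      exact hV
  · -- 4 ∣ x, case 3
    have hx2 := sq_mod8_zero hxr
    have hyo : y % 4 = 1 := by
      rcases hyr with h | h | h
      · exact h
      · exfalso
        have hy2 := sq_mod8_two (z := y) (by omega)
        have := hmod _ _ hy2 hx2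
        omega
      · exfalso
        have hy2 := sq_mod8_zero h
        have := hmod _ _ hy2 hx2
        omega
    have hy2 := sq_mod8_odd (z := y) (by omega)
    have h8 := hmod _ _ hy2 hx2
    have hd8 : d % 8 = 2 := by
      rcases hdr with h | h | h
      · omega
      · exact h
      · have := sq_mod8_zero h; omega
    have hBy : (B * y) % 4 = 2 := by
      rw [Int.mul_emod, hB4, hyo]; rfl
    obtain ⟨C, h1, h2, h3, h4, h5, h6, h7, h9, h10⟩ := exists_cfg hp hcd hxy hc hd2 hB4 hx0 hy0 0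
      (Or.inl ⟨rfl, by omega, hyo⟩) (by omega)
    subst h1 h2 h3 h4 h5 h6
    have hchain := C.case3 h7 h9 hxr hyo hd8 h10
    obtain ⟨f, w, hf, hyw, hw0, hw2, hI, hcdι, hval⟩ := common C _ hchain
    have hleg : (C.y : ZMod C.p) ^ (2 * ((C.p - 1) / 4)) = 1 := by
      have e : 2 * ((C.p - 1) / 4) = C.p / 2 := by omega
      rw [e, ← legendreSym.eq_pow]
      rw [legendre_y hp hp4 0 (y0 := C.y) (by omega) (by ring) hxy (Or.inl rfl)]
      simp
    rw [hleg, map_mul, map_intCast, mul_one] at hval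
    have hε : (((sg ((C.B - 2) / 4 + C.x / 4) : ℤ)) : ZMod C.p) *
        ((sg ((C.B - 2) / 4 + C.x / 4) : ℤ) : ZMod C.p) = 1 := by
      rw [← Int.cast_mul, sg_sq, Int.cast_one]
    obtain ⟨hU, hV⟩ := caseC hp4 C.B (K := (C.p - 1) / 4) (by omega) w (f gI) C.c C.d _ hw2 hw0 hI
      hcdι hε hval
    rw [← hB] at hU hV
    have hbB : (b - 4) / 8 = (C.B - 2) / 4 := by omega
    refine ⟨⟨hpc, hpx, Or.inl ⟨by omega, by omega⟩⟩, ?_, ?_, ?_, ?_, ?_, ?_⟩
    · rintro ⟨_, h⟩; exfalso; omega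
    · rintro ⟨h, _⟩; exfalso; omega
    · intro _
      apply hzmod
      push_cast
      exact hU
    · intro h; exfalso; omega
    · intro _
      apply hzmod
      rw [sg_eq, hbB]
      push_cast
      exact hV
    · intro h
      exfalso
      apply h
      exact Dvd.dvd.mul_right (by omega) _

end Pool.Agent.Results.MP_1f3cf9_nt.QuarterIndexFull
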